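import Mathlib

set_option autoImplicit false

/-!
# The map from the Vietoris-Rips complex of the vertices of a cube to the cube
-/

namespace Pool.Agent.H846V

open Finset

/-- The points of the geometric realization of `VR(Q_n; r)`, `Q_n = {0,1}^n` with the Hamming metric:
the functions `w ≥ 0` with sum `1` whose support has diameter at most `r`. -/
def VRpt (n : ℕ) (r : ℝ) : Set ((Fin n → Bool) → ℝ) :=
  {w | (∀ a, 0 ≤ w a) ∧ ∑ a, w a = 1 ∧ ∀ a b, w a ≠ 0 → w b ≠ 0 → (hammingDist a b : ℝ) ≤ r}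

/-- The vertex of the cube `[0,1]^n`, in coordinates. -/
def e (b : Bool) : ℝ := if b then 1 else 0

/-- The map `f_n`, which is affine on the simplices and sends each vertex to itself. -/
def fmap (n : ℕ) (w : (Fin n → Bool) → ℝ) : Fin n → ℝ := fun i => ∑ a, w a * e (a i)

/-- `f_n : VR(Q_n; r) → [0,1]^n` is surjective. -/
def Surj (n : ℕ) (r : ℝ) : Prop :=
  ∀ x : Fin n → ℝ, (∀ i, 0 ≤ x i ∧ x i ≤ 1) → ∃ w ∈ VRpt n r, fmap n w = x

/-- The center of the cube is in the image of `f_n`. -/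
def Center (n : ℕ) (r : ℝ) : Prop := ∃ w ∈ VRpt n r, fmap n w = fun _ => 1 / 2

/-- There is a Hadamard matrix of order `m`. -/
def HasHadamard (m : ℕ) : Prop :=
  ∃ H : Matrix (Fin m) (Fin m) ℤ, (∀ i j, H i j = 1 ∨ H i j = -1) ∧
    ∀ i i', i ≠ i' → ∑ j, H i j * H i' j = 0

/-! ## Distances -/

lemma ham_eq {n : ℕ} (a b : Fin n → Bool) :
    (hammingDist a b : ℝ) = ∑ k, (e (a k) + e (b k) - 2 * (e (a k) * e (b k))) := by
  unfold hammingDist
  rw [Finset.card_filter]
  push_cast
  refine Finset.sum_congr rfl fun k _ => ?_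
  cases a k <;> cases b k <;> simp [e] <;> norm_num

lemma pair_sum {ι : Type*} [Fintype ι] {n : ℕ} (a : ι → Fin n → Bool) (w : ι → ℝ)
    (h1 : ∑ i, w i = 1) (hc : ∀ k, ∑ i, w i * e (a i k) = 1 / 2) :
    ∑ i, ∑ j, w i * w j * (hammingDist (a i) (a j) : ℝ) = n / 2 := by
  have key : ∀ i j, w i * w j * (hammingDist (a i) (a j) : ℝ) =
      ∑ k, ((w i * e (a i k)) * w j + w i * (w j * e (a j k)) -
        2 * ((w i * e (a i k)) * (w j * e (a j k)))) := by
    intro i j
    rw [ham_eq, Finset.mul_sum]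
    exact Finset.sum_congr rfl fun k _ => by ring
  simp_rw [key]
  calc ∑ i, ∑ j, ∑ k, ((w i * e (a i k)) * w j + w i * (w j * e (a j k)) -
        2 * ((w i * e (a i k)) * (w j * e (a j k))))
      = ∑ i, ∑ k, ∑ j, ((w i * e (a i k)) * w j + w i * (w j * e (a j k)) -
        2 * ((w i * e (a i k)) * (w j * e (a j k)))) :=
        Finset.sum_congr rfl fun i _ => Finset.sum_comm
    _ = ∑ k, ∑ i, ∑ j, ((w i * e (a i k)) * w j + w i * (w j * e (a j k)) -
        2 * ((w i * e (a i k)) * (w j * e (a j k)))) := Finset.sum_comm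
    _ = ∑ _k : Fin n, (1 / 2 : ℝ) := by
        refine Finset.sum_congr rfl fun k _ => ?_
        simp_rw [Finset.sum_sub_distrib, Finset.sum_add_distrib, ← Finset.mul_sum,
          ← Finset.sum_mul]
        rw [h1, hc k]
        norm_num
    _ = n / 2 := by
        rw [Finset.sum_const, Finset.card_univ, Fintype.card_fin, nsmul_eq_mul]
        ring

open Classical in
lemma offdiag {ι : Type*} [Fintype ι] (w : ι → ℝ) (h1 : ∑ i, w i = 1) (c : ℝ) :
    ∑ i, ∑ j, w i * w j * (if i = j then 0 else c) = c * (1 - ∑ i, w i ^ 2) := by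
  have h : ∀ i j, w i * w j * (if i = j then 0 else c) =
      c * (w i * w j) - (if i = j then c * (w i * w j) else 0) := by
    intro i j
    split_ifs <;> ring
  simp_rw [h, Finset.sum_sub_distrib, Finset.sum_ite_eq, Finset.mem_univ, if_true,
    ← Finset.mul_sum]
  rw [h1, ← Finset.sum_mul, h1]
  have : ∀ i, w i * w i = w i ^ 2 := fun i => (sq (w i)).symm
  simp_rw [this]
  ring

/-! ## Small scales -/

/-- sign of a vertex. -/
def sg (b : Bool) : ℝ := if b then -1 else 1

def sgn {n : ℕ} (a : Fin n → Bool) : ℝ := ∏ k, sg (a k)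

lemma sgn_mul {n : ℕ} (a b : Fin n → Bool) : sgn a * sgn b = (-1) ^ hammingDist a b := by
  unfold sgn hammingDist
  rw [← Finset.prod_mul_distrib, ← Finset.prod_const, Finset.prod_filter]
  refine Finset.prod_congr rfl fun k _ => ?_
  cases a k <;> cases b k <;> simp [sg]

lemma center_real {n : ℕ} {r : ℝ} (h : Center n r) :
    ∃ w : (Fin n → Bool) → ℝ, (∀ a, 0 ≤ w a) ∧ ∑ a, w a = 1 ∧
      (∀ k, ∑ a, w a * e (a k) = 1 / 2) ∧
      ∀ a b, w a ≠ 0 → w b ≠ 0 → (hammingDist a b : ℝ) ≤ r := by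
  obtain ⟨w, ⟨h0, h1, h2⟩, h3⟩ := h
  exact ⟨w, h0, h1, fun k => congrFun h3 k, h2⟩

lemma sq_pos_of_sum {ι : Type*} [Fintype ι] (w : ι → ℝ) (h1 : ∑ i, w i = 1) :
    0 < ∑ i, w i ^ 2 := by
  rcases (Finset.sum_nonneg fun i _ => sq_nonneg (w i)).lt_or_eq with h | h
  · exact h
  · exfalso
    have h2 := (Finset.sum_eq_zero_iff_of_nonneg fun i _ => sq_nonneg (w i)).1 h.symm
    have h3 : ∀ i, w i = 0 := fun i => by
      have := h2 i (Finset.mem_univ i)
      exact pow_eq_zero_iff two_ne_zero |>.1 this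
    simp [h3] at h1

/-- The bound for the center: `n ≥ 2 R` is impossible. -/
lemma center_bound {n R : ℕ} (hn : 1 ≤ n) (h : Center n R) : n + 1 ≤ 2 * R := by
  classical
  obtain ⟨w, h0, h1, hc, hd⟩ := center_real h
  have h2 := pair_sum (fun a : Fin n → Bool => a) w h1 hc
  have h3 := offdiag w h1 (R : ℝ)
  have h4 : (n : ℝ) / 2 ≤ R * (1 - ∑ i, w i ^ 2) := by
    rw [← h2, ← h3]
    refine Finset.sum_le_sum fun a _ => Finset.sum_le_sum fun b _ => ?_
    by_cases ha : w a = 0
    · simp [ha]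
    by_cases hb : w b = 0
    · simp [hb]
    refine mul_le_mul_of_nonneg_left ?_ (mul_nonneg (h0 a) (h0 b))
    split_ifs with hab
    · simp [hab]
    · exact hd a b ha hb
  have h5 := sq_pos_of_sum w h1
  have hn' : (1 : ℝ) ≤ n := by exact_mod_cast hn
  have hR : (0 : ℝ) < R := by
    rcases Nat.eq_zero_or_pos R with hR | hR
    · exfalso
      subst hR
      simp at h4
      linarith
    · exact_mod_cast hR
  have h6 : (n : ℝ) / 2 < R := by nlinarith
  have h7 : (n : ℝ) < 2 * R := by linarith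
  have h8 : n < 2 * R := by exact_mod_cast h7
  omega

/-- The sharper bound for odd scales. -/
lemma center_odd {n R : ℕ} (hR3 : 3 ≤ R) (hodd : Odd R) (h : Center n R) : n + 2 ≤ 2 * R := by
  classical
  obtain ⟨w, h0, h1, hc, hd⟩ := center_real h
  have h2 := pair_sum (fun a : Fin n → Bool => a) w h1 hc
  have h3 := offdiag w h1 ((R : ℝ) - 1)
  have h4 : (n : ℝ) / 2 ≤ (R - 1) * (1 - ∑ i, w i ^ 2) +
      ∑ a, ∑ b, w a * w b * ((1 - sgn a * sgn b) / 2) := by
    rw [← h2, ← h3, ← Finset.sum_add_distrib]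
    refine Finset.sum_le_sum fun a _ => ?_
    rw [← Finset.sum_add_distrib]
    refine Finset.sum_le_sum fun b _ => ?_
    by_cases ha : w a = 0
    · simp [ha]
    by_cases hb : w b = 0
    · simp [hb]
    rw [← mul_add]
    refine mul_le_mul_of_nonneg_left ?_ (mul_nonneg (h0 a) (h0 b))
    rw [sgn_mul]
    have hdd : hammingDist a b ≤ R := by exact_mod_cast hd a b ha hb
    rcases Nat.even_or_odd (hammingDist a b) with he | ho
    · rw [he.neg_one_pow]
      split_ifs with hab
      · simp [hab]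
      · have hne : hammingDist a b ≠ R := fun hh => by
          rw [hh] at he
          exact (Nat.not_even_iff_odd.2 hodd) he
        have : hammingDist a b + 1 ≤ R := by omega
        have : (hammingDist a b : ℝ) + 1 ≤ R := by exact_mod_cast this
        linarith
    · rw [ho.neg_one_pow]
      have hab : a ≠ b := fun hh => by
        subst hh
        simp at ho
      rw [if_neg hab]
      have : (hammingDist a b : ℝ) ≤ R := by exact_mod_cast hdd
      linarith
  have h5 : ∑ a, ∑ b, w a * w b * ((1 - sgn a * sgn b) / 2) ≤ 1 / 2 := by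
    have h6 : ∀ a b, w a * w b * ((1 - sgn a * sgn b) / 2) =
        (1 / 2) * (w a * w b) - (1 / 2) * ((w a * sgn a) * (w b * sgn b)) := fun a b => by ring
    simp_rw [h6, Finset.sum_sub_distrib, ← Finset.mul_sum, ← Finset.sum_mul]
    rw [h1]
    have : 0 ≤ (∑ i, w i * sgn i) * ∑ i, w i * sgn i := mul_self_nonneg _
    linarith
  have h7 := sq_pos_of_sum w h1
  have hR : (3 : ℝ) ≤ R := by exact_mod_cast hR3
  have h8 : (n : ℝ) < 2 * R - 1 := by nlinarith
  have h9 : (n : ℝ) + 1 < 2 * R := by linarith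
  have h10 : n + 1 < 2 * R := by exact_mod_cast h9
  omega

end Pool.Agent.H846V
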