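import Pool.Agent.H846V.Large

set_option autoImplicit false

/-!
# Surjectivity of the map at all scales above one half, for large dimensions
-/

namespace Pool.Agent.H846V

open Finset

/-! ## Sums over permutations -/

lemma perm_one {M : ℕ} (h : Fin M → ℝ) (ω : Fin M) :
    (M : ℝ) * ∑ π : Equiv.Perm (Fin M), h (π ω) =
      (Fintype.card (Equiv.Perm (Fin M)) : ℝ) * ∑ j, h j := by
  have h1 : ∀ η : Fin M, ∑ π : Equiv.Perm (Fin M), h (π η) =
      ∑ π : Equiv.Perm (Fin M), h (π ω) := by
    intro η
    refine (Fintype.sum_equiv (Equiv.mulRight (Equiv.swap ω η)) _ _ fun π => ?_).symm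
    simp
  calc (M : ℝ) * ∑ π : Equiv.Perm (Fin M), h (π ω)
      = ∑ η : Fin M, ∑ π : Equiv.Perm (Fin M), h (π η) := by
        simp_rw [h1]
        simp
    _ = ∑ π : Equiv.Perm (Fin M), ∑ η : Fin M, h (π η) := Finset.sum_comm
    _ = ∑ _π : Equiv.Perm (Fin M), ∑ j, h j :=
        Finset.sum_congr rfl fun π _ => Equiv.sum_comp π h
    _ = _ := by simp

lemma exists_two {M : ℕ} {ω ω' η η' : Fin M} (h : ω ≠ ω') (h' : η ≠ η') :
    ∃ τ : Equiv.Perm (Fin M), τ η = ω ∧ τ η' = ω' := by
  refine ⟨Equiv.swap (Equiv.swap η ω η') ω' * Equiv.swap η ω, ?_, ?_⟩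
  · rw [Equiv.Perm.mul_apply, Equiv.swap_apply_left]
    refine Equiv.swap_apply_of_ne_of_ne ?_ h
    intro h2
    have h3 : Equiv.swap η ω η = Equiv.swap η ω η' := by rw [Equiv.swap_apply_left]; exact h2
    exact h' ((Equiv.swap η ω).injective h3)
  · rw [Equiv.Perm.mul_apply, Equiv.swap_apply_left]

lemma perm_two {M : ℕ} (G : Fin M → Fin M → ℝ) (hG : ∀ i j, 0 ≤ G i j) {ω ω' : Fin M}
    (h : ω ≠ ω') :
    (M : ℝ) * (M - 1) * ∑ π : Equiv.Perm (Fin M), G (π ω) (π ω') ≤
      (Fintype.card (Equiv.Perm (Fin M)) : ℝ) * ∑ i, ∑ j, G i j := by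
  have h1 : ∀ η η' : Fin M, η ≠ η' → ∑ π : Equiv.Perm (Fin M), G (π η) (π η') =
      ∑ π : Equiv.Perm (Fin M), G (π ω) (π ω') := by
    intro η η' hη
    obtain ⟨τ, h2, h3⟩ := exists_two h hη
    refine (Fintype.sum_equiv (Equiv.mulRight τ) _ _ fun π => ?_).symm
    simp [h2, h3]
  have h4 : ∑ η : Fin M, ∑ η' : Fin M,
      (if η = η' then 0 else ∑ π : Equiv.Perm (Fin M), G (π ω) (π ω')) =
      (M : ℝ) * (M - 1) * ∑ π : Equiv.Perm (Fin M), G (π ω) (π ω') := by
    have h5 : ∀ η η' : Fin M,
        (if η = η' then (0 : ℝ) else ∑ π : Equiv.Perm (Fin M), G (π ω) (π ω')) =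
        (∑ π : Equiv.Perm (Fin M), G (π ω) (π ω')) -
          (if η = η' then ∑ π : Equiv.Perm (Fin M), G (π ω) (π ω') else 0) := by
      intro η η'
      split_ifs <;> ring
    simp_rw [h5, Finset.sum_sub_distrib, Finset.sum_ite_eq]
    simp
    ring
  rw [← h4]
  calc ∑ η : Fin M, ∑ η' : Fin M,
      (if η = η' then 0 else ∑ π : Equiv.Perm (Fin M), G (π ω) (π ω'))
      ≤ ∑ η : Fin M, ∑ η' : Fin M, ∑ π : Equiv.Perm (Fin M), G (π η) (π η') := by
        refine Finset.sum_le_sum fun η _ => Finset.sum_le_sum fun η' _ => ?_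
        split_ifs with hη
        · exact Finset.sum_nonneg fun π _ => hG _ _
        · exact (h1 η η' hη).ge
    _ = ∑ π : Equiv.Perm (Fin M), ∑ η : Fin M, ∑ η' : Fin M, G (π η) (π η') := by
        rw [Finset.sum_comm]
        calc ∑ η' : Fin M, ∑ η : Fin M, ∑ π : Equiv.Perm (Fin M), G (π η) (π η')
            = ∑ η' : Fin M, ∑ π : Equiv.Perm (Fin M), ∑ η : Fin M, G (π η) (π η') :=
              Finset.sum_congr rfl fun _ _ => Finset.sum_comm
          _ = ∑ π : Equiv.Perm (Fin M), ∑ η' : Fin M, ∑ η : Fin M, G (π η) (π η') :=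
              Finset.sum_comm
          _ = _ := Finset.sum_congr rfl fun _ _ => Finset.sum_comm
    _ = ∑ _π : Equiv.Perm (Fin M), ∑ i, ∑ j, G i j := by
        refine Finset.sum_congr rfl fun π _ => ?_
        rw [← Equiv.sum_comp π fun i => ∑ j, G i j]
        exact Finset.sum_congr rfl fun i _ => Equiv.sum_comp π (G (π i))
    _ = _ := by simp

/-! ## Balanced colourings -/

lemma exists_colour {ι K C : Type} [DecidableEq ι] [DecidableEq K] [DecidableEq C] [Fintype C]
    [Nonempty C] (κ : ι → K) (s : Finset ι) :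
    ∃ col : ι → C, ∀ k c, Fintype.card C * (s.filter fun i => κ i = k ∧ col i = c).card ≤
      (s.filter fun i => κ i = k).card + Fintype.card C := by
  induction s using Finset.induction_on with
  | empty => exact ⟨fun _ => Classical.arbitrary C, fun k c => by simp⟩
  | insert a s ha ih =>
    obtain ⟨col, hcol⟩ := ih
    have h1 : ∃ c, Fintype.card C * (s.filter fun i => κ i = κ a ∧ col i = c).card ≤
        (s.filter fun i => κ i = κ a).card := by
      by_contra hcon
      push Not at hcon
      have h2 : ∑ c : C, (s.filter fun i => κ i = κ a ∧ col i = c).card =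
          (s.filter fun i => κ i = κ a).card := by
        rw [Finset.card_eq_sum_card_fiberwise (f := col) (t := Finset.univ)
          (fun _ _ => Finset.mem_coe.2 (Finset.mem_univ _))]
        refine Finset.sum_congr rfl fun c _ => ?_
        rw [Finset.filter_filter]
      have h3 : ∑ _c : C, (s.filter fun i => κ i = κ a).card <
          ∑ c : C, Fintype.card C * (s.filter fun i => κ i = κ a ∧ col i = c).card :=
        Finset.sum_lt_sum_of_nonempty Finset.univ_nonempty fun c _ => hcon c
      rw [← Finset.mul_sum, h2] at h3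
      simp at h3
    obtain ⟨c0, hc0⟩ := h1
    refine ⟨Function.update col a c0, fun k c => ?_⟩
    have h4 : (insert a s).filter (fun i => κ i = k ∧ Function.update col a c0 i = c) =
        if κ a = k ∧ c0 = c then insert a (s.filter fun i => κ i = k ∧ col i = c)
        else s.filter fun i => κ i = k ∧ col i = c := by
      have h5 : s.filter (fun i => κ i = k ∧ Function.update col a c0 i = c) =
          s.filter fun i => κ i = k ∧ col i = c := by
        refine Finset.filter_congr fun i hi => ?_
        have : i ≠ a := fun h => ha (h ▸ hi)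
        rw [Function.update_of_ne this]
      rw [Finset.filter_insert, h5, Function.update_self]
    have h6 : ((insert a s).filter fun i => κ i = k).card =
        (s.filter fun i => κ i = k).card + if κ a = k then 1 else 0 := by
      rw [Finset.filter_insert]
      split_ifs with h
      · rw [Finset.card_insert_of_notMem]
        intro h7
        exact ha (Finset.mem_filter.1 h7).1
      · simp
    rw [h4, h6]
    split_ifs with h7 h8
    · rw [Finset.card_insert_of_notMem (fun h9 => ha (Finset.mem_filter.1 h9).1)]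
      obtain ⟨h10, h11⟩ := h7
      subst h10 h11
      have := hc0
      rw [mul_add]
      omega
    · exact absurd h7.1 h8
    · have := hcol k c
      omega
    · have := hcol k c
      omega

lemma sum_colour {n : ℕ} {K C : Type} [DecidableEq K] [DecidableEq C] [Fintype K] [Fintype C]
    [Nonempty C] (κ : Fin n → K) :
    ∃ col : Fin n → C, ∀ (F : K → C → ℝ) (B : ℝ), (∀ k c, 0 ≤ F k c) →
      (∀ k, ∑ c, F k c ≤ Fintype.card C * B) →
      ∑ i, F (κ i) (col i) ≤ (n + Fintype.card K * Fintype.card C) * B := by
  obtain ⟨col, hcol⟩ := exists_colour (C := C) κ (Finset.univ : Finset (Fin n))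
  refine ⟨col, fun F B hF hB => ?_⟩
  have hC : (0 : ℝ) < Fintype.card C := by exact_mod_cast Fintype.card_pos
  have h1 : ∑ i, F (κ i) (col i) = ∑ k, ∑ c,
      ((Finset.univ.filter fun i => κ i = k ∧ col i = c).card : ℝ) * F k c := by
    have h2 : ∀ i, F (κ i) (col i) = ∑ k, ∑ c, if κ i = k ∧ col i = c then F k c else 0 := by
      intro i
      rw [Finset.sum_eq_single (κ i), Finset.sum_eq_single (col i)]
      · simp
      · intro c _ hc
        rw [if_neg]
        exact fun h => hc h.2.symm
      · intro h
        exact absurd (Finset.mem_univ _) h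
      · intro k _ hk
        refine Finset.sum_eq_zero fun c _ => if_neg fun h => hk h.1.symm
      · intro h
        exact absurd (Finset.mem_univ _) h
    simp_rw [h2]
    rw [Finset.sum_comm]
    refine Finset.sum_congr rfl fun k _ => ?_
    rw [Finset.sum_comm]
    refine Finset.sum_congr rfl fun c _ => ?_
    rw [← Finset.sum_filter, Finset.sum_const, nsmul_eq_mul]
  rw [h1]
  have h3 : ∀ k, ∑ c, ((Finset.univ.filter fun i => κ i = k ∧ col i = c).card : ℝ) * F k c ≤
      ((Finset.univ.filter fun i => κ i = k).card + Fintype.card C) * B := by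
    intro k
    have hB0 : 0 ≤ B := by
      have h4 : 0 ≤ ∑ c, F k c := Finset.sum_nonneg fun c _ => hF k c
      have := hB k
      by_contra hneg
      push Not at hneg
      have : (Fintype.card C : ℝ) * B < 0 := mul_neg_of_pos_of_neg hC hneg
      linarith
    have h5 : ∀ c, ((Finset.univ.filter fun i => κ i = k ∧ col i = c).card : ℝ) ≤
        ((Finset.univ.filter fun i => κ i = k).card + Fintype.card C) / Fintype.card C := by
      intro c
      rw [le_div_iff₀ hC]
      have := hcol k c
      have h6 : ((Fintype.card C * (Finset.univ.filter fun i => κ i = k ∧ col i = c).card : ℕ) : ℝ)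
          ≤ (((Finset.univ.filter fun i => κ i = k).card + Fintype.card C : ℕ) : ℝ) := by
        exact_mod_cast this
      push_cast at h6
      linarith
    calc ∑ c, ((Finset.univ.filter fun i => κ i = k ∧ col i = c).card : ℝ) * F k c
        ≤ ∑ c, (((Finset.univ.filter fun i => κ i = k).card + Fintype.card C) /
            Fintype.card C : ℝ) * F k c :=
          Finset.sum_le_sum fun c _ => mul_le_mul_of_nonneg_right (h5 c) (hF k c)
      _ = (((Finset.univ.filter fun i => κ i = k).card + Fintype.card C) /
            Fintype.card C : ℝ) * ∑ c, F k c := by rw [Finset.mul_sum]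
      _ ≤ (((Finset.univ.filter fun i => κ i = k).card + Fintype.card C) /
            Fintype.card C : ℝ) * (Fintype.card C * B) :=
          mul_le_mul_of_nonneg_left (hB k) (by positivity)
      _ = _ := by field_simp
  refine (Finset.sum_le_sum fun k _ => h3 k).trans (le_of_eq ?_)
  rw [← Finset.sum_mul, Finset.sum_add_distrib]
  have h7 : ∑ k, ((Finset.univ.filter fun i => κ i = k).card : ℝ) = n := by
    have : ∑ k, (Finset.univ.filter fun i => κ i = k).card = n := by
      rw [← Finset.card_eq_sum_card_fiberwise (f := κ) (s := Finset.univ) (t := Finset.univ)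
        (fun _ _ => Finset.mem_coe.2 (Finset.mem_univ _))]
      simp
    exact_mod_cast this
  rw [h7]
  simp

end Pool.Agent.H846V
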