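import Pool.Agent.H846V.Large

set_option autoImplicit false

/-!
# The center of the cube at the critical scale and Hadamard matrices
-/

namespace Pool.Agent.H846V

open Finset

/-- coordinates `±1` of a vertex. -/
def pm (b : Bool) : ℤ := if b then 1 else -1

lemma corr {n : ℕ} (a b : Fin n → Bool) :
    ∑ k, pm (a k) * pm (b k) = n - 2 * (hammingDist a b : ℤ) := by
  have h : ∀ k, pm (a k) * pm (b k) = 1 - 2 * (if a k ≠ b k then 1 else 0) := by
    intro k
    cases a k <;> cases b k <;> simp [pm]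
  simp_rw [h, Finset.sum_sub_distrib, ← Finset.mul_sum]
  unfold hammingDist
  rw [Finset.card_filter]
  simp

/-- the vertex as a point of the cube. -/
def vt {n : ℕ} (a : Fin n → Bool) : Fin n → ℝ := fun i => e (a i)

/-- Carathéodory: a representation of the center by affinely independent vertices. -/
lemma center_indep {n : ℕ} {r : ℝ} (h : Center n r) :
    ∃ (ι : Type) (_ : Fintype ι) (a : ι → Fin n → Bool) (w : ι → ℝ),
      Fintype.card ι ≤ n + 1 ∧ (∀ i, 0 < w i) ∧ ∑ i, w i = 1 ∧
      (∀ k, ∑ i, w i * e (a i k) = 1 / 2) ∧ ∀ i j, (hammingDist (a i) (a j) : ℝ) ≤ r := by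
  classical
  obtain ⟨w, h0, h1, hc, hd⟩ := center_real h
  set s : Set (Fin n → ℝ) := {z | ∃ a, w a ≠ 0 ∧ z = vt a} with hs
  have hmem : (fun _ => 1 / 2 : Fin n → ℝ) ∈ convexHull ℝ s := by
    have h2 : ∑ a ∈ univ.filter (fun a => w a ≠ 0), w a • vt a = (fun _ => 1 / 2 : Fin n → ℝ) := by
      rw [Finset.sum_filter]
      funext k
      rw [Finset.sum_apply, ← hc k]
      refine Finset.sum_congr rfl fun a _ => ?_
      by_cases ha : w a = 0
      · simp [ha]
      · simp [ha, vt]
    rw [← h2]
    refine (convex_convexHull ℝ s).sum_mem (fun a _ => h0 a) ?_ ?_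
    · rw [← h1, Finset.sum_filter_ne_zero]
    · intro a ha
      exact subset_convexHull ℝ s ⟨a, (Finset.mem_filter.1 ha).2, rfl⟩
  obtain ⟨ι, hι, z, w', hz, hind, hpos, hsum, hz2⟩ := eq_pos_convex_span_of_mem_convexHull hmem
  have hch : ∀ i, ∃ a, w a ≠ 0 ∧ z i = vt a := fun i => hz ⟨i, rfl⟩
  choose a ha hza using hch
  refine ⟨ι, hι, a, w', ?_, hpos, hsum, ?_, fun i j => hd _ _ (ha i) (ha j)⟩
  · have h3 := hind.card_le_finrank_succ
    have h4 : Module.finrank ℝ (vectorSpan ℝ (Set.range z)) ≤ n := by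
      refine (Submodule.finrank_le _).trans ?_
      rw [Module.finrank_fin_fun]
    omega
  · intro k
    have h5 := congrFun hz2 k
    rw [Finset.sum_apply] at h5
    rw [← h5]
    refine Finset.sum_congr rfl fun i _ => ?_
    rw [hza i]
    rfl

lemma hadamard_of_center {n R : ℕ} (hnR : n + 1 = 2 * R) (h : Center n R) :
    HasHadamard (n + 1) := by
  classical
  obtain ⟨ι, _, a, w, hcard, hpos, h1, hc, hd⟩ := center_indep h
  have hR : (0 : ℝ) < R := by
    have : 0 < R := by omega
    exact_mod_cast this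
  have hnR' : (n : ℝ) + 1 = 2 * R := by exact_mod_cast hnR
  have h2 := pair_sum a w h1 hc
  have h3 := offdiag w h1 (R : ℝ)
  have hle : ∀ i j, w i * w j * (hammingDist (a i) (a j) : ℝ) ≤
      w i * w j * (if i = j then 0 else (R : ℝ)) := by
    intro i j
    refine mul_le_mul_of_nonneg_left ?_ (mul_nonneg (hpos i).le (hpos j).le)
    split_ifs with hij
    · simp [hij]
    · exact hd i j
  have h4 : (n : ℝ) / 2 ≤ R * (1 - ∑ i, w i ^ 2) := by
    rw [← h2, ← h3]
    exact Finset.sum_le_sum fun i _ => Finset.sum_le_sum fun j _ => hle i j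
  have h5 : ∑ i, w i ^ 2 ≤ 1 / (2 * R) := by
    rw [le_div_iff₀ (by positivity)]
    nlinarith
  have hcard' : (Fintype.card ι : ℝ) ≤ 2 * R := by
    rw [← hnR']
    exact_mod_cast hcard
  have h6 : ∑ i, (w i - 1 / (2 * R)) ^ 2 ≤ 0 := by
    have h7 : ∀ i, (w i - 1 / (2 * R)) ^ 2 = w i ^ 2 - (1 / R) * w i + 1 / (4 * R ^ 2) := by
      intro i
      field_simp
      ring
    simp_rw [h7, Finset.sum_add_distrib, Finset.sum_sub_distrib, ← Finset.mul_sum]
    rw [h1, Finset.sum_const, Finset.card_univ, nsmul_eq_mul]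
    have h8 : (Fintype.card ι : ℝ) * (1 / (4 * R ^ 2)) ≤ 2 * R * (1 / (4 * R ^ 2)) :=
      mul_le_mul_of_nonneg_right hcard' (by positivity)
    have h9 : 2 * R * (1 / (4 * (R : ℝ) ^ 2)) = 1 / (2 * R) := by
      field_simp
      ring
    have h10 : (1 : ℝ) / R = 2 * (1 / (2 * R)) := by
      field_simp
    rw [h9] at h8
    rw [h10]
    linarith
  have h7 : ∀ i, w i = 1 / (2 * R) := by
    intro i
    have h8 := (Finset.sum_eq_zero_iff_of_nonneg fun i _ => sq_nonneg (w i - 1 / (2 * R))).1
      (le_antisymm h6 (Finset.sum_nonneg fun i _ => sq_nonneg _)) i (Finset.mem_univ i)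
    have h9 := pow_eq_zero_iff two_ne_zero |>.1 h8
    linarith
  have h8 : (Fintype.card ι : ℝ) = 2 * R := by
    simp_rw [h7] at h1
    rw [Finset.sum_const, Finset.card_univ, nsmul_eq_mul] at h1
    field_simp at h1
    linarith
  have h9 : Fintype.card ι = n + 1 := by
    have : (Fintype.card ι : ℝ) = ((n + 1 : ℕ) : ℝ) := by
      rw [h8]
      push_cast
      linarith
    exact_mod_cast this
  have h10 : ∑ i, ∑ j, (w i * w j * (if i = j then 0 else (R : ℝ)) -
      w i * w j * (hammingDist (a i) (a j) : ℝ)) = 0 := by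
    simp_rw [Finset.sum_sub_distrib]
    rw [h3, h2]
    have h11 : ∑ i, w i ^ 2 = 1 / (2 * R) := by
      simp_rw [h7]
      rw [Finset.sum_const, Finset.card_univ, nsmul_eq_mul, h8]
      field_simp
    rw [h11]
    have : (n : ℝ) = 2 * R - 1 := by linarith
    rw [this]
    field_simp
    ring
  have h11 : ∀ i j, i ≠ j → hammingDist (a i) (a j) = R := by
    intro i j hij
    have h12 := (Finset.sum_eq_zero_iff_of_nonneg fun i _ => Finset.sum_nonneg fun j _ =>
      sub_nonneg.2 (hle i j)).1 h10 i (Finset.mem_univ i)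
    have h13 := (Finset.sum_eq_zero_iff_of_nonneg fun j _ => sub_nonneg.2 (hle i j)).1 h12 j
      (Finset.mem_univ j)
    rw [if_neg hij, ← mul_sub] at h13
    have h14 : (0 : ℝ) < w i * w j := mul_pos (hpos i) (hpos j)
    have h15 : (R : ℝ) - hammingDist (a i) (a j) = 0 := by
      rcases mul_eq_zero.1 h13 with h | h
      · exact absurd h h14.ne'
      · exact h
    have h16 : (hammingDist (a i) (a j) : ℝ) = R := by linarith
    exact_mod_cast h16
  let φ : Fin (n + 1) ≃ ι := (Fintype.equivFinOfCardEq h9).symm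
  refine ⟨fun i => Fin.cons 1 fun k => pm (a (φ i) k), ?_, ?_⟩
  · intro i j
    refine Fin.cases ?_ (fun k => ?_) j
    · left
      rfl
    · show pm (a (φ i) k) = 1 ∨ pm (a (φ i) k) = -1
      unfold pm
      split_ifs
      · exact Or.inl rfl
      · exact Or.inr rfl
  · intro i i' hii
    rw [Fin.sum_univ_succ]
    simp only [Fin.cons_zero, Fin.cons_succ]
    rw [corr, h11 _ _ (fun h => hii (φ.injective h))]
    have : (n : ℤ) + 1 = 2 * R := by exact_mod_cast hnR
    linarith

lemma center_of_hadamard {n R : ℕ} (hnR : n + 1 = 2 * R) (h : HasHadamard (n + 1)) :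
    Center n R := by
  classical
  obtain ⟨H, hpm, horth⟩ := h
  have hsq : ∀ i j, H i j * H i j = 1 := by
    intro i j
    rcases hpm i j with h | h <;> simp [h]
  let p : Fin (n + 1) → Fin n → Bool := fun i k => decide (H i 0 * H i k.succ = 1)
  have hp : ∀ i k, pm (p i k) = H i 0 * H i k.succ := by
    intro i k
    show (if decide (H i 0 * H i k.succ = 1) = true then (1 : ℤ) else -1) = _
    rcases hpm i 0 with h | h <;> rcases hpm i k.succ with h' | h' <;> simp [h, h']
  have hcor : ∀ i i', i ≠ i' → ∑ k, pm (p i k) * pm (p i' k) = -1 := by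
    intro i i' hii
    have h1 := horth i i' hii
    rw [Fin.sum_univ_succ] at h1
    have h2 : ∀ k, pm (p i k) * pm (p i' k) =
        (H i 0 * H i' 0) * (H i k.succ * H i' k.succ) := by
      intro k
      rw [hp, hp]
      ring
    simp_rw [h2, ← Finset.mul_sum]
    have h3 : ∑ k : Fin n, H i k.succ * H i' k.succ = -(H i 0 * H i' 0) := by linarith
    rw [h3]
    have h4 : H i 0 * H i' 0 * (H i 0 * H i' 0) = 1 := by
      calc H i 0 * H i' 0 * (H i 0 * H i' 0) = (H i 0 * H i 0) * (H i' 0 * H i' 0) := by ring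
        _ = 1 := by rw [hsq, hsq]; rfl
    linarith
  have hdist : ∀ i i', hammingDist (p i) (p i') ≤ R := by
    intro i i'
    by_cases hii : i = i'
    · subst hii
      simp
    · have h1 := hcor i i' hii
      rw [corr] at h1
      omega
  have hbal : ∀ k, ∑ i, pm (p i k) = 0 := by
    have h1 : ∑ k, (∑ i, pm (p i k)) * ∑ i, pm (p i k) = 0 := by
      have h2 : ∀ k, (∑ i, pm (p i k)) * ∑ i, pm (p i k) =
          ∑ i, ∑ i', pm (p i k) * pm (p i' k) := fun k => by rw [Finset.sum_mul_sum]
      simp_rw [h2]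
      rw [Finset.sum_comm]
      have h3 : ∀ i, ∑ k, ∑ i', pm (p i k) * pm (p i' k) = 0 := by
        intro i
        rw [Finset.sum_comm]
        have h4 : ∀ i', ∑ k, pm (p i k) * pm (p i' k) =
            (if i' = i then (n : ℤ) + 1 else 0) - 1 := by
          intro i'
          by_cases hii : i' = i
          · subst hii
            rw [corr, if_pos rfl]
            simp
          · rw [hcor i i' (Ne.symm hii), if_neg hii]
            rfl
        simp_rw [h4, Finset.sum_sub_distrib]
        simp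
      simp_rw [h3]
      simp
    intro k
    have h2 := (Finset.sum_eq_zero_iff_of_nonneg fun k _ => mul_self_nonneg _).1 h1 k
      (Finset.mem_univ k)
    exact mul_self_eq_zero.1 h2
  have hn : (0 : ℝ) < n + 1 := by positivity
  obtain ⟨w, hw, hf⟩ := of_family p (fun _ => 1 / ((n : ℝ) + 1)) (fun _ => by positivity)
    (by
      rw [Finset.sum_const, Finset.card_univ, Fintype.card_fin, nsmul_eq_mul]
      push_cast
      field_simp) (R : ℝ) (fun t t' => by exact_mod_cast hdist t t')
  refine ⟨w, hw, ?_⟩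
  rw [hf]
  funext k
  have h1 : ∀ b : Bool, e b = (1 + (pm b : ℝ)) / 2 := by
    intro b
    cases b <;> simp [e, pm]
  have h2 : ∑ i, (pm (p i k) : ℝ) = 0 := by exact_mod_cast hbal k
  simp_rw [h1, ← Finset.mul_sum, ← Finset.sum_div, Finset.sum_add_distrib]
  rw [h2, Finset.sum_const, Finset.card_univ, Fintype.card_fin, nsmul_eq_mul]
  push_cast
  field_simp
  ring

end Pool.Agent.H846V
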