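import Pool.Agent.H846V.Design

set_option autoImplicit false

/-!
# Surjectivity at scales above one half of the dimension
-/

namespace Pool.Agent.H846V

open Finset

/-- indicator of `j < k`. -/
noncomputable def gg (k j : ℕ) : ℝ := if j < k then 1 else 0

/-- indicator of `j = k`. -/
noncomputable def hh (k j : ℕ) : ℝ := if j = k then 1 else 0

lemma gg_sq (k j : ℕ) : gg k j * gg k j = gg k j := by
  unfold gg
  split_ifs <;> simp

lemma hh_nonneg (k j : ℕ) : 0 ≤ hh k j := by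
  unfold hh
  split_ifs <;> simp

lemma sum_gg (M k : ℕ) :
    ∑ i : Fin M, ∑ j : Fin M, (gg k i - gg k j) ^ 2 ≤ (M : ℝ) ^ 2 / 2 := by
  have h1 : ∀ i j : Fin M, (gg k i - gg k j) ^ 2 = gg k i + gg k j - 2 * (gg k i * gg k j) := by
    intro i j
    have h2 := gg_sq k i
    have h3 := gg_sq k j
    ring_nf
    ring_nf at h2 h3
    rw [h2, h3]
    ring
  simp_rw [h1, Finset.sum_sub_distrib, Finset.sum_add_distrib, ← Finset.mul_sum,
    ← Finset.sum_mul]
  simp only [Finset.sum_const, Finset.card_univ, Fintype.card_fin, nsmul_eq_mul]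
  rw [← Finset.mul_sum]
  nlinarith [sq_nonneg ((M : ℝ) - 2 * ∑ i : Fin M, gg k i)]

lemma sum_hh (M k : ℕ) : ∑ j : Fin M, hh k j ≤ 1 := by
  unfold hh
  rw [← Finset.sum_filter, Finset.sum_const, nsmul_eq_mul, mul_one]
  have : (Finset.univ.filter fun j : Fin M => (j : ℕ) = k).card ≤ 1 := by
    rw [Finset.card_le_one]
    intro a ha b hb
    have h1 := (Finset.mem_filter.1 ha).2
    have h2 := (Finset.mem_filter.1 hb).2
    exact Fin.ext (h1.trans h2.symm)
  exact_mod_cast this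

/-- the cost of a permutation for a class `k` and two outcomes. -/
noncomputable def FF (M : ℕ) (ω ω' : Fin M) (k : Fin (M + 1)) (π : Equiv.Perm (Fin M)) : ℝ :=
  (gg k (π ω) - gg k (π ω')) ^ 2 + hh k (π ω) + hh k (π ω')

/-- the bound for the mean cost. -/
noncomputable def BB (M : ℕ) : ℝ := (M : ℝ) / (2 * (M - 1)) + 2 / M

lemma sum_FF (M : ℕ) (hM : 2 ≤ M) (ω ω' : Fin M) (k : Fin (M + 1)) :
    ∑ π, FF M ω ω' k π ≤ Fintype.card (Equiv.Perm (Fin M)) * BB M := by
  have hM' : (2 : ℝ) ≤ M := by exact_mod_cast hM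
  set N : ℝ := (Fintype.card (Equiv.Perm (Fin M)) : ℝ) with hN
  have hN0 : 0 ≤ N := by positivity
  have h1 : ∀ η : Fin M, ∑ π : Equiv.Perm (Fin M), hh k (π η) ≤ N * (1 / M) := by
    intro η
    have h2 := perm_one (fun j : Fin M => hh k j) η
    have h3 : N * ∑ j : Fin M, hh k j ≤ N * 1 := mul_le_mul_of_nonneg_left (sum_hh M k) hN0
    rw [mul_one_div, le_div_iff₀ (by linarith)]
    linarith
  have h4 : ∑ π : Equiv.Perm (Fin M), (gg k (π ω) - gg k (π ω')) ^ 2 ≤
      N * ((M : ℝ) / (2 * (M - 1))) := by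
    by_cases h : ω = ω'
    · subst h
      simp only [sub_self]
      have : 0 ≤ N * ((M : ℝ) / (2 * (M - 1))) :=
        mul_nonneg hN0 (div_nonneg (by linarith) (by linarith))
      simpa using this
    · have h5 := perm_two (fun i j : Fin M => (gg k i - gg k j) ^ 2) (fun i j => sq_nonneg _) h
      have h6 : N * ∑ i : Fin M, ∑ j : Fin M, (gg k i - gg k j) ^ 2 ≤ N * ((M : ℝ) ^ 2 / 2) :=
        mul_le_mul_of_nonneg_left (sum_gg M k) hN0
      have h7 : (M : ℝ) * (M - 1) * ∑ π : Equiv.Perm (Fin M), (gg k (π ω) - gg k (π ω')) ^ 2 ≤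
          N * ((M : ℝ) ^ 2 / 2) := h5.trans h6
      have h8 : (0 : ℝ) < M * (M - 1) := mul_pos (by linarith) (by linarith)
      have h9 : N * ((M : ℝ) / (2 * (M - 1))) = N * ((M : ℝ) ^ 2 / 2) / (M * (M - 1)) := by
        have : (M : ℝ) - 1 ≠ 0 := by linarith
        have : (M : ℝ) ≠ 0 := by linarith
        field_simp
      rw [h9, le_div_iff₀ h8]
      linarith
  unfold FF BB
  rw [Finset.sum_add_distrib, Finset.sum_add_distrib]
  have := h1 ω
  have := h1 ω'
  have h10 : N * ((M : ℝ) / (2 * (M - 1)) + 2 / M) =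
      N * ((M : ℝ) / (2 * (M - 1))) + N * (1 / M) + N * (1 / M) := by ring
  rw [h10]
  linarith

lemma supp_one {n : ℕ} {w : (Fin n → Bool) → ℝ} (h0 : ∀ a, 0 ≤ w a) (h1 : ∑ a, w a = 1)
    {i : Fin n} (hi : fmap n w i = 1) {a : Fin n → Bool} (ha : w a ≠ 0) : a i = true := by
  have h2 : ∑ b, w b * (1 - e (b i)) = 0 := by
    have : ∀ b : Fin n → Bool, w b * (1 - e (b i)) = w b - w b * e (b i) := fun b => by ring
    simp_rw [this, Finset.sum_sub_distrib]
    rw [h1]
    have : ∑ b, w b * e (b i) = 1 := hi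
    rw [this]
    ring
  have h3 : ∀ b : Fin n → Bool, 0 ≤ 1 - e (b i) := by
    intro b
    cases b i <;> simp [e]
  have h4 := (Finset.sum_eq_zero_iff_of_nonneg fun b _ => mul_nonneg (h0 b) (h3 b)).1 h2 a
    (Finset.mem_univ a)
  rcases mul_eq_zero.1 h4 with h | h
  · exact absurd h ha
  · cases hb : a i
    · rw [hb] at h
      simp [e] at h
    · rfl

lemma supp_zero {n : ℕ} {w : (Fin n → Bool) → ℝ} (h0 : ∀ a, 0 ≤ w a)
    {i : Fin n} (hi : fmap n w i = 0) {a : Fin n → Bool} (ha : w a ≠ 0) : a i = false := by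
  have h3 : ∀ b : Fin n → Bool, 0 ≤ e (b i) := by
    intro b
    cases b i <;> simp [e]
  have h2 : ∑ b, w b * e (b i) = 0 := hi
  have h4 := (Finset.sum_eq_zero_iff_of_nonneg fun b _ => mul_nonneg (h0 b) (h3 b)).1 h2 a
    (Finset.mem_univ a)
  rcases mul_eq_zero.1 h4 with h | h
  · exact absurd h ha
  · cases hb : a i
    · rfl
    · rw [hb] at h
      simp [e] at h

/-- the part of the interval `[0, y]` in `[j, j + 1]`. -/
noncomputable def qq (y : ℝ) (j : ℕ) : ℝ := min y (j + 1) - min y j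

lemma qq_nonneg (y : ℝ) (j : ℕ) : 0 ≤ qq y j :=
  sub_nonneg.2 (min_le_min le_rfl (by linarith))

lemma qq_le_one (y : ℝ) (j : ℕ) : qq y j ≤ 1 := by
  unfold qq
  rcases le_total y j with h | h
  · rw [min_eq_left h, min_eq_left (by linarith)]
    linarith
  · rw [min_eq_right h]
    have := min_le_right y ((j : ℝ) + 1)
    linarith

lemma qq_one {y : ℝ} {j : ℕ} (h : (j : ℝ) + 1 ≤ y) : qq y j = 1 := by
  unfold qq
  rw [min_eq_right h, min_eq_right (by linarith)]
  ring

lemma qq_zero {y : ℝ} {j : ℕ} (h : y ≤ j) : qq y j = 0 := by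
  unfold qq
  rw [min_eq_left h, min_eq_left (by linarith)]
  ring

lemma sum_qq (M : ℕ) {y : ℝ} (h0 : 0 ≤ y) (h1 : y ≤ M) : ∑ j : Fin M, qq y j = y := by
  have h2 : ∑ j : Fin M, qq y j = ∑ j ∈ Finset.range M, (min y ((j + 1 : ℕ) : ℝ) - min y (j : ℕ)) := by
    rw [← Fin.sum_univ_eq_sum_range (fun j => (min y ((j + 1 : ℕ) : ℝ) - min y (j : ℕ))) M]
    refine Finset.sum_congr rfl fun j _ => ?_
    unfold qq
    push_cast
    rfl
  rw [h2, Finset.sum_range_sub (fun j => min y ((j : ℕ) : ℝ))]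
  rw [min_eq_left h1]
  simp [h0]

theorem surj_design (M n : ℕ) (hM : 2 ≤ M) (r : ℝ)
    (hr : ((n : ℝ) + (M + 1) * Fintype.card (Equiv.Perm (Fin M))) * BB M ≤ r) : Surj n r := by
  classical
  intro x hx
  have hM' : (2 : ℝ) ≤ M := by exact_mod_cast hM
  have hM0 : (M : ℝ) ≠ 0 := by linarith
  have hy0 : ∀ i, 0 ≤ (M : ℝ) * x i := fun i => mul_nonneg (by linarith) (hx i).1
  have hy1 : ∀ i, (M : ℝ) * x i ≤ M := fun i => by
    have := mul_le_mul_of_nonneg_left (hx i).2 (by linarith : (0 : ℝ) ≤ M)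
    linarith
  have hfl : ∀ i, ⌊(M : ℝ) * x i⌋₊ < M + 1 := fun i => by
    have : ⌊(M : ℝ) * x i⌋₊ ≤ M := Nat.floor_le_of_le (hy1 i)
    omega
  let κ : Fin n → Fin (M + 1) := fun i => ⟨⌊(M : ℝ) * x i⌋₊, hfl i⟩
  obtain ⟨col, hcol⟩ := sum_colour (C := Equiv.Perm (Fin M)) κ
  have hq : ∀ ω : Fin M, ∃ w ∈ VRpt n (n : ℝ), fmap n w =
      fun i => qq ((M : ℝ) * x i) (col i ω) :=
    fun ω => surj_large (n := n) (R := n) (by omega) _ fun i => ⟨qq_nonneg _ _, qq_le_one _ _⟩
  choose w hw hf using hq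
  refine ⟨fun a => (1 / M) * ∑ ω, w ω a, ⟨?_, ?_, ?_⟩, ?_⟩
  · intro a
    exact mul_nonneg (by positivity) (Finset.sum_nonneg fun ω _ => (hw ω).1 a)
  · rw [← Finset.mul_sum, Finset.sum_comm]
    have : ∀ ω, ∑ a, w ω a = 1 := fun ω => (hw ω).2.1
    simp_rw [this]
    simp
    field_simp
  · intro a b ha hb
    obtain ⟨ω, -, hω⟩ := Finset.exists_ne_zero_of_sum_ne_zero (right_ne_zero_of_mul ha)
    obtain ⟨ω', -, hω'⟩ := Finset.exists_ne_zero_of_sum_ne_zero (right_ne_zero_of_mul hb)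
    have h1 : (hammingDist a b : ℝ) ≤ ∑ i, FF M ω ω' (κ i) (col i) := by
      unfold hammingDist
      rw [Finset.card_filter]
      push_cast
      refine Finset.sum_le_sum fun i _ => ?_
      have hnn : 0 ≤ (gg (κ i) (col i ω) - gg (κ i) (col i ω')) ^ 2 := sq_nonneg _
      have hn1 := hh_nonneg (κ i) (col i ω)
      have hn2 := hh_nonneg (κ i) (col i ω')
      split_ifs with hab
      · unfold FF
        by_cases h2 : (col i ω : ℕ) = κ i
        · have : hh (κ i) (col i ω) = 1 := if_pos h2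
          linarith
        by_cases h3 : (col i ω' : ℕ) = κ i
        · have : hh (κ i) (col i ω') = 1 := if_pos h3
          linarith
        have hk : ((κ i : ℕ) : ℝ) ≤ (M : ℝ) * x i := Nat.floor_le (hy0 i)
        have hk' : (M : ℝ) * x i < (κ i : ℕ) + 1 := Nat.lt_floor_add_one _
        rcases lt_or_gt_of_ne h2 with h4 | h4 <;> rcases lt_or_gt_of_ne h3 with h5 | h5
        · exfalso
          have h6 : ((col i ω : ℕ) : ℝ) + 1 ≤ (κ i : ℕ) := by exact_mod_cast h4
          have h7 : ((col i ω' : ℕ) : ℝ) + 1 ≤ (κ i : ℕ) := by exact_mod_cast h5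
          have h8 : fmap n (w ω) i = 1 := by rw [hf ω]; exact qq_one (by linarith)
          have h9 : fmap n (w ω') i = 1 := by rw [hf ω']; exact qq_one (by linarith)
          have h10 := supp_one (hw ω).1 (hw ω).2.1 h8 hω
          have h11 := supp_one (hw ω').1 (hw ω').2.1 h9 hω'
          exact hab (h10.trans h11.symm)
        · have h6 : gg (κ i) (col i ω) = 1 := if_pos h4
          have h7 : gg (κ i) (col i ω') = 0 := if_neg (by omega)
          rw [h6, h7]
          norm_num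
          linarith
        · have h6 : gg (κ i) (col i ω) = 0 := if_neg (by omega)
          have h7 : gg (κ i) (col i ω') = 1 := if_pos h5
          rw [h6, h7]
          norm_num
          linarith
        · exfalso
          have h6 : ((κ i : ℕ) : ℝ) + 1 ≤ (col i ω : ℕ) := by exact_mod_cast h4
          have h7 : ((κ i : ℕ) : ℝ) + 1 ≤ (col i ω' : ℕ) := by exact_mod_cast h5
          have h8 : fmap n (w ω) i = 0 := by rw [hf ω]; exact qq_zero (by linarith)
          have h9 : fmap n (w ω') i = 0 := by rw [hf ω']; exact qq_zero (by linarith)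
          have h10 := supp_zero (hw ω).1 h8 hω
          have h11 := supp_zero (hw ω').1 h9 hω'
          exact hab (h10.trans h11.symm)
      · unfold FF
        linarith
    refine h1.trans (le_trans ?_ hr)
    have h2 := hcol (FF M ω ω') (BB M) (fun k π => by
      unfold FF
      have := hh_nonneg k (π ω)
      have := hh_nonneg k (π ω')
      positivity) (fun k => sum_FF M hM ω ω' k)
    refine h2.trans (le_of_eq ?_)
    simp
  · funext i
    show ∑ a : Fin n → Bool, (1 / (M : ℝ)) * (∑ ω, w ω a) * e (a i) = x i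
    have h1 : ∀ a : Fin n → Bool, (1 / (M : ℝ)) * (∑ ω, w ω a) * e (a i) =
        (1 / (M : ℝ)) * ∑ ω, w ω a * e (a i) := by
      intro a
      rw [mul_assoc, Finset.sum_mul]
    simp_rw [h1, ← Finset.mul_sum]
    rw [Finset.sum_comm]
    have h2 : ∀ ω, ∑ a, w ω a * e (a i) = qq ((M : ℝ) * x i) (col i ω) :=
      fun ω => congrFun (hf ω) i
    simp_rw [h2]
    rw [Equiv.sum_comp (col i) (fun j : Fin M => qq ((M : ℝ) * x i) j), sum_qq M (hy0 i) (hy1 i)]
    field_simp

lemma BB_le (M : ℕ) (hM : 2 ≤ M) : BB M ≤ 1 / 2 + 3 / M := by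
  have hM' : (2 : ℝ) ≤ M := by exact_mod_cast hM
  unfold BB
  have h1 : (M : ℝ) / (2 * (M - 1)) = 1 / 2 + 1 / (2 * (M - 1)) := by
    have : (M : ℝ) - 1 ≠ 0 := by linarith
    field_simp
    ring
  have h2 : 1 / (2 * ((M : ℝ) - 1)) ≤ 1 / M :=
    one_div_le_one_div_of_le (by linarith) (by linarith)
  rw [h1]
  have h3 : (3 : ℝ) / M = 1 / M + 2 / M := by ring
  rw [h3]
  linarith

theorem surj_half {ε : ℝ} (hε : 0 < ε) :
    ∃ n₀ : ℕ, ∀ n : ℕ, n₀ ≤ n → ∀ r : ℝ, (1 / 2 + ε) * n ≤ r → Surj n r := by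
  set M : ℕ := ⌈6 / ε⌉₊ + 2 with hMdef
  have hM : 2 ≤ M := by omega
  have hM' : (2 : ℝ) ≤ M := by exact_mod_cast hM
  have h1 : 6 / ε ≤ M := by
    have := Nat.le_ceil (6 / ε)
    rw [hMdef]
    push_cast
    linarith
  have h2 : 3 / (M : ℝ) ≤ ε / 2 := by
    rw [div_le_iff₀ (by linarith)]
    rw [div_le_iff₀ hε] at h1
    linarith
  have h3 : BB M ≤ 1 / 2 + ε / 2 := (BB_le M hM).trans (by linarith)
  set C : ℝ := (M + 1) * Fintype.card (Equiv.Perm (Fin M)) with hC
  have hC0 : 0 ≤ C := by positivity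
  refine ⟨⌈C * (1 / 2 + ε / 2) / (ε / 2)⌉₊, fun n hn r hr => surj_design M n hM r ?_⟩
  have h4 : C * (1 / 2 + ε / 2) / (ε / 2) ≤ n := (Nat.le_ceil _).trans (by exact_mod_cast hn)
  rw [div_le_iff₀ (by linarith)] at h4
  calc ((n : ℝ) + C) * BB M ≤ ((n : ℝ) + C) * (1 / 2 + ε / 2) :=
        mul_le_mul_of_nonneg_left h3 (by positivity)
    _ ≤ (1 / 2 + ε) * n := by nlinarith
    _ ≤ r := hr

end Pool.Agent.H846V
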