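import Pool.Agent.H846V.Cube

set_option autoImplicit false

/-!
# Surjectivity of the map at large scales
-/

namespace Pool.Agent.H846V

open Finset

lemma of_family {τ : Type*} [Fintype τ] {n : ℕ} (p : τ → Fin n → Bool) (l : τ → ℝ)
    (hl : ∀ t, 0 ≤ l t) (h1 : ∑ t, l t = 1) (r : ℝ)
    (hd : ∀ t t', (hammingDist (p t) (p t') : ℝ) ≤ r) :
    ∃ w ∈ VRpt n r, fmap n w = fun i => ∑ t, l t * e (p t i) := by
  classical
  refine ⟨fun a => ∑ t, if p t = a then l t else 0, ⟨?_, ?_, ?_⟩, ?_⟩
  · intro a
    exact Finset.sum_nonneg fun t _ => by split_ifs; exacts [hl t, le_rfl]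
  · rw [Finset.sum_comm]
    simp [h1]
  · intro a b ha hb
    obtain ⟨t, -, ht⟩ := Finset.exists_ne_zero_of_sum_ne_zero ha
    obtain ⟨t', -, ht'⟩ := Finset.exists_ne_zero_of_sum_ne_zero hb
    have h2 : p t = a := by
      by_contra h
      exact ht (if_neg h)
    have h3 : p t' = b := by
      by_contra h
      exact ht' (if_neg h)
    rw [← h2, ← h3]
    exact hd t t'
  · funext i
    show ∑ a, (∑ t, if p t = a then l t else 0) * e (a i) = _
    simp_rw [Finset.sum_mul]
    rw [Finset.sum_comm]
    refine Finset.sum_congr rfl fun t _ => ?_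
    rw [Finset.sum_eq_single (p t)]
    · simp
    · intro b _ hb
      rw [if_neg (Ne.symm hb), zero_mul]
    · intro h
      exact absurd (Finset.mem_univ _) h

lemma surj_mono {n : ℕ} {r s : ℝ} (h : r ≤ s) (hr : Surj n r) : Surj n s := by
  intro x hx
  obtain ⟨w, ⟨h0, h1, h2⟩, h3⟩ := hr x hx
  exact ⟨w, ⟨h0, h1, fun a b ha hb => (h2 a b ha hb).trans h⟩, h3⟩

lemma sum_append {n m : ℕ} (F : (Fin (n + m) → Bool) → ℝ) :
    ∑ c, F c = ∑ a : Fin n → Bool, ∑ b : Fin m → Bool, F (Fin.append a b) := by
  rw [← Fintype.sum_prod_type']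
  exact (Fintype.sum_equiv (Fin.appendEquiv n m) _ _ fun p => rfl).symm

lemma ham_append {n m : ℕ} (c d : Fin (n + m) → Bool) :
    hammingDist c d = hammingDist (fun i => c (Fin.castAdd m i)) (fun i => d (Fin.castAdd m i)) +
      hammingDist (fun j => c (Fin.natAdd n j)) (fun j => d (Fin.natAdd n j)) := by
  unfold hammingDist
  rw [Finset.card_filter, Finset.card_filter, Finset.card_filter, Fin.sum_univ_add]

lemma surj_add {n m : ℕ} {r s : ℝ} (hr : Surj n r) (hs : Surj m s) : Surj (n + m) (r + s) := by
  intro x hx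
  obtain ⟨w, ⟨h0, h1, h2⟩, h3⟩ := hr (fun i => x (Fin.castAdd m i)) fun i => hx _
  obtain ⟨u, ⟨k0, k1, k2⟩, k3⟩ := hs (fun j => x (Fin.natAdd n j)) fun j => hx _
  refine ⟨fun c => w (fun i => c (Fin.castAdd m i)) * u (fun j => c (Fin.natAdd n j)),
    ⟨fun c => mul_nonneg (h0 _) (k0 _), ?_, ?_⟩, ?_⟩
  · rw [sum_append]
    simp only [Fin.append_left, Fin.append_right]
    simp_rw [← Finset.mul_sum]
    rw [k1]
    simpa using h1
  · intro c d hc hd
    rw [ham_append]
    push_cast
    exact add_le_add (h2 _ _ (left_ne_zero_of_mul hc) (left_ne_zero_of_mul hd))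
      (k2 _ _ (right_ne_zero_of_mul hc) (right_ne_zero_of_mul hd))
  · funext i
    show ∑ c : Fin (n + m) → Bool,
      w (fun i => c (Fin.castAdd m i)) * u (fun j => c (Fin.natAdd n j)) * e (c i) = x i
    rw [sum_append]
    refine Fin.addCases (fun i => ?_) (fun j => ?_) i
    · simp only [Fin.append_left, Fin.append_right]
      have h5 : ∀ a : Fin n → Bool, ∑ b : Fin m → Bool, w a * u b * e (a i) =
          w a * e (a i) := by
        intro a
        have : ∀ b : Fin m → Bool, w a * u b * e (a i) = (w a * e (a i)) * u b := fun b => by ring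
        simp_rw [this, ← Finset.mul_sum]
        rw [k1, mul_one]
      simp_rw [h5]
      exact congrFun h3 i
    · simp only [Fin.append_left, Fin.append_right]
      have h5 : ∀ a : Fin n → Bool, ∑ b : Fin m → Bool, w a * u b * e (b j) =
          w a * x (Fin.natAdd n j) := by
        intro a
        have : ∀ b : Fin m → Bool, w a * u b * e (b j) = w a * (u b * e (b j)) := fun b => by ring
        simp_rw [this, ← Finset.mul_sum]
        rw [← congrFun k3 j]
        rfl
      simp_rw [h5, ← Finset.sum_mul]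
      rw [h1, one_mul]

lemma surj_zero : Surj 0 0 := by
  intro x _
  obtain ⟨w, hw, h⟩ := of_family (τ := Unit) (n := 0) (fun _ => Fin.elim0) (fun _ => 1)
    (fun _ => zero_le_one) (by simp) 0 (by intro t t'; simp)
  exact ⟨w, hw, funext fun i => i.elim0⟩

lemma surj_one : Surj 1 1 := by
  intro x hx
  obtain ⟨w, hw, h⟩ := of_family (τ := Fin 2) (n := 1) ![![false], ![true]]
    ![1 - x 0, x 0] (by
      intro t
      fin_cases t
      · simpa using (hx 0).2
      · simpa using (hx 0).1) (by simp) 1 (by
      have : ∀ t t' : Fin 2, hammingDist ((![![false], ![true]] : Fin 2 → Fin 1 → Bool) t)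
          ((![![false], ![true]] : Fin 2 → Fin 1 → Bool) t') ≤ 1 := by decide
      intro t t'
      exact_mod_cast this t t')
  refine ⟨w, hw, ?_⟩
  rw [h]
  funext i
  fin_cases i
  simp [Fin.sum_univ_two, e]

lemma surj_three_aux (x : Fin 3 → ℝ) (p : Fin 4 → Fin 3 → Bool)
    (hp : ∀ t t', hammingDist (p t) (p t') ≤ 2) (l : Fin 4 → ℝ) (hl : ∀ t, 0 ≤ l t)
    (h1 : l 0 + l 1 + l 2 + l 3 = 1)
    (hx : ∀ i, l 0 * e (p 0 i) + l 1 * e (p 1 i) + l 2 * e (p 2 i) + l 3 * e (p 3 i) = x i) :
    ∃ w ∈ VRpt 3 2, fmap 3 w = x := by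
  obtain ⟨w, hw, h⟩ := of_family (τ := Fin 4) (n := 3) p l hl
    (by rw [Fin.sum_univ_four]; exact h1) 2 (fun t t' => by exact_mod_cast hp t t')
  refine ⟨w, hw, ?_⟩
  rw [h]
  funext i
  rw [Fin.sum_univ_four]
  exact hx i

lemma surj_three : Surj 3 2 := by
  intro x hx
  have a0 := hx 0
  have a1 := hx 1
  have a2 := hx 2
  by_cases c1 : 2 < x 0 + x 1 + x 2
  · refine surj_three_aux x ![![true, true, true], ![false, true, true], ![true, false, true],
      ![true, true, false]] (by decide) ![x 0 + x 1 + x 2 - 2, 1 - x 0, 1 - x 1, 1 - x 2] ?_ ?_ ?_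
    · intro t
      fin_cases t <;> simp <;> linarith
    · simp
      ring
    · intro i
      fin_cases i <;> simp [e] <;> ring
  by_cases c2 : x 1 + x 2 < x 0
  · refine surj_three_aux x ![![true, false, false], ![false, false, false], ![true, true, false],
      ![true, false, true]] (by decide) ![x 0 - x 1 - x 2, 1 - x 0, x 1, x 2] ?_ ?_ ?_
    · intro t
      fin_cases t <;> simp <;> linarith
    · simp
      ring
    · intro i
      fin_cases i <;> simp [e] <;> ring
  by_cases c3 : x 0 + x 2 < x 1
  · refine surj_three_aux x ![![false, true, false], ![false, false, false], ![true, true, false],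
      ![false, true, true]] (by decide) ![x 1 - x 0 - x 2, 1 - x 1, x 0, x 2] ?_ ?_ ?_
    · intro t
      fin_cases t <;> simp <;> linarith
    · simp
      ring
    · intro i
      fin_cases i <;> simp [e] <;> ring
  by_cases c4 : x 0 + x 1 < x 2
  · refine surj_three_aux x ![![false, false, true], ![false, false, false], ![true, false, true],
      ![false, true, true]] (by decide) ![x 2 - x 0 - x 1, 1 - x 2, x 0, x 1] ?_ ?_ ?_
    · intro t
      fin_cases t <;> simp <;> linarith
    · simp
      ring
    · intro i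
      fin_cases i <;> simp [e] <;> ring
  · refine surj_three_aux x ![![false, false, false], ![true, true, false], ![true, false, true],
      ![false, true, true]] (by decide) ![(2 - x 0 - x 1 - x 2) / 2, (x 0 + x 1 - x 2) / 2,
        (x 0 - x 1 + x 2) / 2, (-x 0 + x 1 + x 2) / 2] ?_ ?_ ?_
    · intro t
      fin_cases t <;> simp <;> linarith
    · simp
      ring
    · intro i
      fin_cases i <;> simp [e] <;> ring

lemma surj_main (n : ℕ) : Surj n (((2 * n + 2) / 3 : ℕ) : ℝ) := by
  induction n using Nat.strong_induction_on with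
  | _ n ih =>
    match n with
    | 0 => exact surj_mono (by positivity) surj_zero
    | 1 => exact surj_mono (by norm_num) surj_one
    | 2 => exact surj_mono (by norm_num) (surj_add surj_one surj_one)
    | (m + 3) =>
      have h := surj_add (ih m (by omega)) surj_three
      refine surj_mono ?_ h
      have : (2 * (m + 3) + 2) / 3 = (2 * m + 2) / 3 + 2 := by omega
      rw [this]
      push_cast
      exact le_rfl

lemma surj_large {n R : ℕ} (h : 2 * n ≤ 3 * R) : Surj n (R : ℝ) := by
  refine surj_mono ?_ (surj_main n)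
  have : (2 * n + 2) / 3 ≤ R := by omega
  exact_mod_cast this

end Pool.Agent.H846V
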